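import Pool.Agent.J4H45.EXP.Ev

/-!
# Adaptive levels: the new proof system is computable in polynomial time
-/

set_option autoImplicit false

namespace Pool.Agent.J4H45.EXP

open Pool.Agent.NPC Pool.Agent.H628R3.RO Pool.Agent.J4H45.OPT

/-- the members of the list with answer yes -/
def selL (l : List (List Bool)) (ans : List Bool) : List (List Bool) :=
  ((l.zip ans).filter (fun p => p.2)).map (fun p => p.1)

theorem selL_map (f : List Bool → Bool) (l : List (List Bool)) :
    selL l (l.map f) = l.filter f := by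
  unfold selL
  induction l with
  | nil => rfl
  | cons a l ih =>
    rw [List.map_cons, List.zip_cons_cons, List.filter_cons, List.filter_cons]
    cases h : f a with
    | true => simp [ih]
    | false => simpa using ih

section

variable (M : Alg) (K i0 i1 : ℕ)

/-- Is there a short proof? (for an oracle given by a list) -/
def hasPf (S : List (List Bool)) (N n l : ℕ) : Bool :=
  (strs (lg N)).any (fun y => decide (K * y.length.size ≤ n) &&
    decide (M.out (ofL S) y = some (code (min n N) (min l N))))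

/-- the level at block `i`, for an oracle given by a list -/
def levF (S : List (List Bool)) (N i : ℕ) : ℕ :=
  (List.range (i - i0)).foldl
    (fun l k => l + (if hasPf M K S N (lg^[2 * ((i - i0) - k)] N) l = true then 0 else 1)) 0

/-- Is the statement an axiom? -/
def okE (x : List Bool) (S : List (List Bool)) : Bool :=
  decide (x = code (siz x) (lvl x)) && (decide (ix (siz x) = 2 * (ix (siz x) / 2) + 1) &&
    (decide (i1 ≤ ix (siz x) / 2) && decide (lvl x = levF M K i0 S (siz x) (ix (siz x) / 2))))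

end

/-! ### Correctness -/

theorem lg_T (j : ℕ) : ∀ t, lg^[2 * t] (T (j + t)) = T j := by
  intro t
  induction t with
  | zero => rfl
  | succ t ih =>
    have h1 : 2 * (t + 1) = 2 * t + 1 + 1 := by ring
    rw [h1, Function.iterate_succ_apply, Function.iterate_succ_apply, ← add_assoc, T_succ,
      lg_two_pow, lg_two_pow, ih]

theorem length_lt_two_pow {K n : ℕ} (hK : 1 ≤ K) {y : List Bool}
    (h : K * y.length.size ≤ n) : y.length < 2 ^ n := by
  refine lt_of_lt_of_le (Nat.lt_size_self _) (Nat.pow_le_pow_right (by norm_num) ?_)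
  nlinarith

theorem hasPf_iff {O : Oracle → Oracle} {M : Alg} {K i0 : ℕ} (ok : Ok O M K i0) {A : Oracle}
    {i j l : ℕ} (hj : i0 ≤ j) (hji : j < i) (hl : l ≤ T i) {S : List (List Bool)}
    (hS : ∀ x : List Bool, x.length ≤ lg (T i) → ofL S x = O A x) :
    hasPf M K S (T i) (T j) l = true ↔ Pf O M K A j l := by
  unfold hasPf Pf
  rw [List.any_eq_true, min_eq_left (T_strictMono.monotone hji.le), min_eq_left hl]
  have h1 := two_pow_T_le hji
  have hc : ∀ y : List Bool, K * y.length.size ≤ T j → M.out (ofL S) y = M.out (O A) y :=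
    fun y hy => ok.congr j hj y hy _ _ fun x hx => hS x (hx.trans h1)
  constructor
  · rintro ⟨y, -, hy⟩
    rw [Bool.and_eq_true, decide_eq_true_eq, decide_eq_true_eq] at hy
    exact ⟨y, hy.1, by rw [← hc y hy.1, hy.2]⟩
  · rintro ⟨y, hy, ho⟩
    refine ⟨y, mem_strs.2 ((length_lt_two_pow ok.pos hy).le.trans h1), ?_⟩
    rw [Bool.and_eq_true, decide_eq_true_eq, decide_eq_true_eq]
    exact ⟨hy, by rw [hc y hy, ho]⟩

theorem levF_eq {O : Oracle → Oracle} {M : Alg} {K i0 : ℕ} (ok : Ok O M K i0) {A : Oracle}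
    {i : ℕ} (hi : i0 ≤ i) {S : List (List Bool)}
    (hS : ∀ x : List Bool, x.length ≤ lg (T i) → ofL S x = O A x) :
    levF M K i0 S (T i) i = lv O M K i0 A i := by
  have key : ∀ k ≤ i - i0, (List.range k).foldl
      (fun l k => l + (if hasPf M K S (T i) (lg^[2 * ((i - i0) - k)] (T i)) l = true
        then 0 else 1)) 0 = lv O M K i0 A (i0 + k) := by
    intro k
    induction k with
    | zero =>
      intro _
      rw [lv_eq_zero A (by omega)]
      rfl
    | succ k ih =>
      intro hk
      rw [List.range_succ, List.foldl_append, ih (by omega)]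
      simp only [List.foldl_cons, List.foldl_nil]
      have h1 : lg^[2 * ((i - i0) - k)] (T i) = T (i0 + k) := by
        have h2 := lg_T (i0 + k) ((i - i0) - k)
        have h3 : i0 + k + ((i - i0) - k) = i := by omega
        rwa [h3] at h2
      rw [h1]
      have h4 := hasPf_iff ok (A := A) (i := i) (j := i0 + k) (l := lv O M K i0 A (i0 + k))
        (by omega) (by omega) ((lv_le A _).trans ((by omega : i0 + k ≤ i).trans (le_T i))) hS
      by_cases h5 : Pf O M K A (i0 + k) (lv O M K i0 A (i0 + k))
      · rw [if_pos (h4.2 h5), ← add_assoc, lv_succ_of_pf (by omega) h5]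
        rfl
      · rw [if_neg (fun h => h5 (h4.1 h)), ← add_assoc, lv_succ_of_not_pf (by omega) h5]
  unfold levF
  rw [key _ le_rfl]
  congr 1
  omega

theorem ofL_filter' (B : Oracle) {m : ℕ} {x : List Bool} (hx : x.length ≤ m) :
    ofL ((strs m).filter B) x = B x := ofL_filter B (mem_strs.2 hx)

/-! ### Polynomial time -/

section

variable {α : Type} [TEnc α]

theorem p_selL {l : α → List (List Bool)} {ans : α → List Bool} (hl : Poly l) (ha : Poly ans) :
    Poly (fun a => selL (l a) (ans a)) := by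
  refine NPC.Poly.map (F := fun _ (p : List Bool × Bool) => p.1)
    (NPC.Poly.filter (p := fun _ (p : List Bool × Bool) => p.2) (Poly.zip hl ha) ?_) ?_
  · exact Poly.snd (Poly.snd Poly.id)
  · exact Poly.fst (Poly.snd Poly.id)

theorem lg_iterate_le (t n : ℕ) : lg^[t] n ≤ n := by
  induction t with
  | zero => exact le_rfl
  | succ t ih =>
    rw [Function.iterate_succ_apply']
    exact (lg_le _).trans ih

theorem exists_le_of_uPoly {n : α → ℕ} (hn : UPoly n) :
    ∃ r : Polynomial ℕ, ∀ a, n a ≤ r.eval (sz a) := uPoly_le hn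

theorem u_lgI {n t : α → ℕ} (hn : UPoly n) (ht : UPoly t) :
    UPoly (fun a => lg^[t a] (n a)) := by
  refine UPoly.of_le ?_ hn fun a => lg_iterate_le _ _
  obtain ⟨r, hr⟩ := uPoly_le hn
  refine (Poly.iterLen (l := fun a => List.replicate (t a) ()) (s := n)
    (F := fun (_ : α) m => lg m) ht hn.toPoly (u_lg (Poly.snd Poly.id)).toPoly
    (Polynomial.C 4 * r + Polynomial.C 1) ?_).congr fun a => ?_
  · intro a k _
    have h1 := sz_nat_le (lg^[k] (n a))
    have h2 := Poly.size_le_self (lg^[k] (n a))
    have h3 := lg_iterate_le k (n a)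
    have h4 := hr a
    change sz (lg^[k] (n a)) ≤ _
    simp only [Polynomial.eval_add, Polynomial.eval_mul, Polynomial.eval_C]
    omega
  · rw [List.length_replicate]

theorem two_pow_lg_le (n : ℕ) : 2 ^ lg n ≤ n + 1 := by
  unfold lg
  rcases Nat.eq_zero_or_pos n with h | h
  · subst h
    simp
  · have h1 : 0 < n.size := Nat.size_pos.2 h
    have h2 : 2 ^ (n.size - 1) ≤ n := by
      by_contra hcon
      have h3 : n.size ≤ n.size - 1 := Nat.size_le.2 (by omega)
      omega
    omega

theorem p_strs_lg {n : α → ℕ} (hn : UPoly n) : Poly (fun a => strs (lg (n a))) :=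
  p_strs (u_lg hn.toPoly) (UPoly.add hn (UPoly.const 1)) fun a => two_pow_lg_le _

variable (M : Alg) (K i0 i1 : ℕ)

theorem u_min {m n : α → ℕ} (hm : Poly m) (hn : UPoly n) : UPoly (fun a => min (m a) (n a)) :=
  UPoly.of_le (Poly.min hm hn.toPoly) hn fun _ => min_le_right _ _

theorem p_hasPf {S : α → List (List Bool)} {N n l : α → ℕ} (hS : Poly S) (hN : UPoly N)
    (hn : Poly n) (hl : Poly l) : Poly (fun a => hasPf M K (S a) (N a) (n a) (l a)) := by
  have h1 : Poly (fun p : α × List Bool => p.1) := Poly.fst Poly.id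
  have h2 : Poly (fun p : α × List Bool => p.2) := Poly.snd Poly.id
  refine NPC.Poly.any (p := fun a y => decide (K * y.length.size ≤ n a) &&
    decide (M.out (ofL (S a)) y = some (code (min (n a) (N a)) (min (l a) (N a)))))
    (p_strs_lg hN) (Poly.and ?_ ?_)
  · exact Poly.decide_le (Poly.mul (NPC.Poly.const K) (u_size (Poly.length h2)).toPoly)
      (hn.comp h1)
  · exact Poly.decide_eq (p_out M (hS.comp h1) h2)
      (Poly.some (p_code (u_min (hn.comp h1) (hN.comp h1)) (u_min (hl.comp h1) (hN.comp h1))))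

theorem foldl_le (g : ℕ → ℕ → Bool) : ∀ (L : List ℕ) (s : ℕ),
    L.foldl (fun l k => l + (if g l k = true then 0 else 1)) s ≤ s + L.length := by
  intro L
  induction L with
  | nil => intro s; exact le_rfl
  | cons a L ih =>
    intro s
    rw [List.foldl_cons, List.length_cons]
    refine (ih _).trans ?_
    split_ifs <;> omega

theorem p_levF {S : α → List (List Bool)} {N i : α → ℕ} (hS : Poly S) (hN : UPoly N)
    (hi : UPoly i) : Poly (fun a => levF M K i0 (S a) (N a) (i a)) := by
  have hd : UPoly (fun a => i a - i0) :=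
    UPoly.of_le (Poly.sub hi.toPoly (NPC.Poly.const i0)) hi fun _ => Nat.sub_le _ _
  obtain ⟨r, hr⟩ := uPoly_le hd
  refine NPC.Poly.foldl (l := fun a => List.range (i a - i0)) (s := fun _ => (0 : ℕ))
    (F := fun (a : α) (l k : ℕ) =>
      l + (if hasPf M K (S a) (N a) (lg^[2 * ((i a - i0) - k)] (N a)) l = true then 0 else 1))
    hd.range (NPC.Poly.const 0) ?_ (Polynomial.C 4 * r + Polynomial.C 1) ?_
  · have h1 : Poly (fun p : α × ℕ × ℕ => p.1) := Poly.fst Poly.id
    have h2 : Poly (fun p : α × ℕ × ℕ => p.2.1) := Poly.fst (Poly.snd Poly.id)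
    have h3 : Poly (fun p : α × ℕ × ℕ => p.2.2) := Poly.snd (Poly.snd Poly.id)
    have h4 : UPoly (fun p : α × ℕ × ℕ => (i p.1 - i0) - p.2.2) :=
      UPoly.of_le (Poly.sub (hd.toPoly.comp h1) h3) (hd.comp h1) fun _ => Nat.sub_le _ _
    have h5 : UPoly (fun p : α × ℕ × ℕ => 2 * ((i p.1 - i0) - p.2.2)) :=
      UPoly.mul (UPoly.const 2) h4
    have h6 : UPoly (fun p : α × ℕ × ℕ => lg^[2 * ((i p.1 - i0) - p.2.2)] (N p.1)) :=
      u_lgI (hN.comp h1) h5
    have h7 : Poly (fun p : α × ℕ × ℕ => hasPf M K (S p.1) (N p.1)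
        (lg^[2 * ((i p.1 - i0) - p.2.2)] (N p.1)) p.2.1) :=
      p_hasPf M K (hS.comp h1) (hN.comp h1) h6.toPoly h2
    exact Poly.add h2 (Poly.ite (Poly.decide_bool h7) (NPC.Poly.const 0) (NPC.Poly.const 1))
  · intro a k _
    have h1 := foldl_le (fun l k => hasPf M K (S a) (N a)
      (lg^[2 * ((i a - i0) - k)] (N a)) l) ((List.range (i a - i0)).take k) 0
    have h2 : ((List.range (i a - i0)).take k).length ≤ i a - i0 := by
      rw [List.length_take, List.length_range]
      exact min_le_right _ _
    have h3 := hr a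
    set v := ((List.range (i a - i0)).take k).foldl (fun l k =>
      l + (if hasPf M K (S a) (N a) (lg^[2 * ((i a - i0) - k)] (N a)) l = true then 0 else 1)) 0
      with hv
    have h4 := sz_nat_le v
    have h5 := Poly.size_le_self v
    simp only [Polynomial.eval_add, Polynomial.eval_mul, Polynomial.eval_C]
    omega

theorem ix_le (n : ℕ) : ix n ≤ n := by
  rcases Nat.eq_zero_or_pos (ix n) with h | h
  · omega
  · obtain ⟨k, hk⟩ : ∃ k, ix n = k + 1 := ⟨ix n - 1, by omega⟩
    have h1 := tw_of_ix hk
    have h2 := lt_tw k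
    omega

theorem p_okE {x : α → List Bool} {S : α → List (List Bool)} (hx : Poly x) (hS : Poly S) :
    Poly (fun a => okE M K i0 i1 (x a) (S a)) := by
  have h1 := u_lvl hx
  have h2 := u_siz hx
  have h3 : UPoly (fun a => ix (siz (x a))) := UPoly.of_le (p_ix h2) h2 fun _ => ix_le _
  have h4 : UPoly (fun a => ix (siz (x a)) / 2) :=
    UPoly.of_le (Poly.div h3.toPoly (NPC.Poly.const 2)) h3 fun _ => Nat.div_le_self _ _
  exact Poly.and (Poly.decide_eq hx (p_code h2 h1)) (Poly.and
    (Poly.decide_eq h3.toPoly (Poly.succ (Poly.mul (NPC.Poly.const 2) h4.toPoly)))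
    (Poly.and (Poly.decide_le (NPC.Poly.const i1) h4.toPoly)
      (Poly.decide_eq h1.toPoly (p_levF M K i0 hS h2 h4))))

end

section

variable {O : Oracle → Oracle} (M : Alg) (K i0 i1 : ℕ)

theorem isFP_okE (B : Oracle) : IsFP B (fun x =>
    [okE M K i0 i1 x ((strs (lg (siz x))).filter B)]) := by
  have h1 : Poly (fun x : List Bool => strs (lg (siz x))) := p_strs_lg (u_siz Poly.id)
  obtain ⟨N, hN⟩ := IsFP.tt (A := B) (Q := fun x => strs (lg (siz x)))
    (H := fun p => [okE M K i0 i1 p.1 (selL (strs (lg (siz p.1))) p.2)]) h1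
    (Poly.cons (p_okE M K i0 i1 (Poly.fst Poly.id) (p_selL (h1.comp (Poly.fst Poly.id))
      (Poly.snd Poly.id))) (NPC.Poly.const []))
  refine ⟨N, fun x => ?_⟩
  rw [hN x]
  simp only [selL_map]

/-- The new system: the given system, and axioms. -/
def Qe (B : Oracle) (P : List Bool → List Bool) (w : List Bool) : List Bool :=
  if w.head? = some true ∧ okE M K i0 i1 w.tail ((strs (lg (siz w.tail))).filter B) = true then
    w.tail else P w.tail

theorem isFP_Qe {B : Oracle} {P : List Bool → List Bool} (hP : IsFP B P) :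
    IsFP B (Qe M K i0 i1 B P) := by
  have ht : Poly (fun w : List Bool => w.tail) := Poly.tail Poly.id
  have h1 : IsFP B (fun w => P w.tail) := IsFP.comp hP (IsFP.of_poly ht)
  have h2 := IsFP.seq h1 (isFP_okE M K i0 i1 B) (φ := fun p => p.1.tail)
    (ψ := fun p => if p.1.head? = some true ∧ p.2.2 = [true] then p.1.tail else p.2.1)
    (Poly.tail (Poly.fst Poly.id)) ?_
  · obtain ⟨N, hN⟩ := h2
    refine ⟨N, fun w => ?_⟩
    rw [hN w]
    simp only [List.cons.injEq, and_true]
    rfl
  · have hw : Poly (fun p : List Bool × List Bool × List Bool => p.1) := Poly.fst Poly.id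
    exact Poly.ite (Poly.decide_and (Poly.decide_eq (Poly.head? hw) (NPC.Poly.const _))
      (Poly.decide_eq (Poly.snd (Poly.snd Poly.id)) (NPC.Poly.const [true])))
      (Poly.tail hw) (Poly.fst (Poly.snd Poly.id))

theorem Qe_false (B : Oracle) (P : List Bool → List Bool) (w : List Bool) :
    Qe M K i0 i1 B P (false :: w) = P w := by
  unfold Qe
  rw [if_neg (by simp)]
  rfl

theorem Qe_true (B : Oracle) (P : List Bool → List Bool) {w : List Bool}
    (h : okE M K i0 i1 w ((strs (lg (siz w))).filter B) = true) :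
    Qe M K i0 i1 B P (true :: w) = w := by
  unfold Qe
  rw [if_pos ⟨by simp, h⟩]
  rfl

end

end Pool.Agent.J4H45.EXP
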