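import Pool.Agent.J4H45.OPT.Over
import Pool.Agent.J4H45.OPT.Emb
import Pool.Agent.J4H45.OPT.Tower

/-!
# Adaptive levels: the events
-/

set_option autoImplicit false

namespace Pool.Agent.J4H45.EXP

open MeasureTheory Filter Pool.Agent.NPC Pool.Agent.H628R3.RO Pool.Agent.J4H45.OPT

/-- the blocks in use -/
def T (i : ℕ) : ℕ := tw (2 * i)

theorem T_succ (i : ℕ) : T (i + 1) = 2 ^ 2 ^ T i := rfl

theorem T_strictMono : StrictMono T := fun _ _ h => tw_strictMono (by omega)

theorem le_T (i : ℕ) : i ≤ T i := by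
  have := lt_tw (2 * i)
  unfold T
  omega

theorem T_pos (i : ℕ) : 1 ≤ T i := tw_pos _

theorem two_pow_T_lt (i : ℕ) : 2 ^ T i < T (i + 1) := Nat.lt_two_pow_self

theorem two_pow_T_le {i i' : ℕ} (h : i < i') : 2 ^ T i ≤ lg (T i') := by
  obtain ⟨k, rfl⟩ : ∃ k, i' = k + 1 := ⟨i' - 1, by omega⟩
  rw [T_succ, lg_two_pow]
  exact Nat.pow_le_pow_right (by norm_num) (T_strictMono.monotone (by omega))

section

variable (O : Oracle → Oracle) (M : Alg) (K i0 : ℕ)

/-- the algorithm has a short proof of the statement of level `l` about block `i` -/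
def Pf (A : Oracle) (i l : ℕ) : Prop :=
  ∃ y : List Bool, K * y.length.size ≤ T i ∧ M.out (O A) y = some (code (T i) l)

/-- an error at block `i` -/
def Er (i : ℕ) : Set Oracle := {A | ∃ l ≤ i, Pf O M K A i l ∧ A ∈ BadT (T i) l}

/-- there were no errors at the blocks `i0, …, i - 1` -/
def Dn (i : ℕ) : Set Oracle := {A | ∀ i', i0 ≤ i' → i' < i → A ∉ Er O M K i'}

/-- a short proof of a true statement of level `l` about block `i` -/
def Zr (i l : ℕ) : Set Oracle := {A | A ∉ BadT (T i) l ∧ Pf O M K A i l}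

open Classical in
/-- the levels: go to the next level if the algorithm has no short proof -/
noncomputable def lv (A : Oracle) : ℕ → ℕ
  | 0 => 0
  | i + 1 => if i < i0 then 0 else lv A i + (if Pf O M K A i (lv A i) then 0 else 1)

end

section

variable {O : Oracle → Oracle} {M : Alg} {K i0 : ℕ}

theorem lv_le (A : Oracle) (i : ℕ) : lv O M K i0 A i ≤ i := by
  induction i with
  | zero => exact le_rfl
  | succ i ih =>
    rw [lv]
    split_ifs <;> omega

theorem lv_eq_zero (A : Oracle) : ∀ {i : ℕ}, i ≤ i0 → lv O M K i0 A i = 0 := by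
  intro i h
  cases i with
  | zero => rfl
  | succ i => rw [lv, if_pos (by omega)]

theorem lv_succ_of_pf {A : Oracle} {i : ℕ} (hi : i0 ≤ i) (h : Pf O M K A i (lv O M K i0 A i)) :
    lv O M K i0 A (i + 1) = lv O M K i0 A i := by
  rw [lv, if_neg (by omega), if_pos h]
  rfl

theorem lv_succ_of_not_pf {A : Oracle} {i : ℕ} (hi : i0 ≤ i)
    (h : ¬ Pf O M K A i (lv O M K i0 A i)) :
    lv O M K i0 A (i + 1) = lv O M K i0 A i + 1 := by
  rw [lv, if_neg (by omega), if_neg h]

end

/-- the constants are suitable -/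
structure Ok (O : Oracle → Oracle) (M : Alg) (K i0 : ℕ) : Prop where
  pos : 1 ≤ K
  touch : ∀ i ≥ i0, ∀ y : List Bool, K * y.length.size ≤ T i →
    2 * M.p.eval y.length ≤ 2 ^ T i
  congr : ∀ i ≥ i0, ∀ y : List Bool, K * y.length.size ≤ T i → ∀ A A' : Oracle,
    (∀ x : List Bool, x.length ≤ 2 ^ T i → A x = A' x) → M.out A y = M.out A' y
  spots : ∀ i ≥ i0, 3 * T i + 2 ≤ 2 ^ T i

theorem exists_ok (O : Oracle → Oracle) (M : Alg) : ∃ K i0, Ok O M K i0 := by
  obtain ⟨qb, hq⟩ := M.out_congr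
  set q := qb + M.p with hqq
  set c := q.eval 1 with hc
  set d := q.natDegree with hd
  obtain ⟨N2, h2⟩ := eventually_atTop.1
    (H529R3.Lev.poly_le_two_pow (Polynomial.C 3 * Polynomial.X + Polynomial.C 2))
  have key : ∀ i ≥ 2 * c + 2 + N2, ∀ y : List Bool, (2 * d + 2) * y.length.size ≤ T i →
      2 * q.eval y.length ≤ 2 ^ T i := by
    intro i hi y hy
    have h1 := eval_le_pow q y.length y.length.size (Nat.lt_size_self _).le
    rw [← hc, ← hd] at h1
    have h3 := le_T i
    have h4 : c + d * y.length.size + 1 ≤ T i := by nlinarith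
    calc 2 * q.eval y.length ≤ 2 * 2 ^ (c + d * y.length.size) := by omega
      _ = 2 ^ (c + d * y.length.size + 1) := by rw [pow_succ]; ring
      _ ≤ 2 ^ T i := Nat.pow_le_pow_right (by norm_num) h4
  refine ⟨2 * d + 2, 2 * c + 2 + N2, ⟨by omega, ?_, ?_, ?_⟩⟩
  · intro i hi y hy
    have h3 := key i hi y hy
    rw [hqq, Polynomial.eval_add] at h3
    omega
  · intro i hi y hy A A' hA
    refine hq A A' y y.length le_rfl fun x hx => hA x ?_
    have h3 := key i hi y hy
    rw [hqq, Polynomial.eval_add] at h3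
    omega
  · intro i hi
    have h3 := le_T i
    have h4 := h2 (T i) (by omega)
    simpa only [Polynomial.eval_add, Polynomial.eval_mul, Polynomial.eval_C,
      Polynomial.eval_X] using h4

section

variable {O : Oracle → Oracle} (E : Emb O) {M : Alg} {K i0 : ℕ} (ok : Ok O M K i0)

include E ok

theorem pf_congr {i l : ℕ} (hi : i0 ≤ i) {A A' : Oracle}
    (hA : ∀ x : List Bool, x.length ≤ 2 ^ T i → A x = A' x) :
    Pf O M K A i l ↔ Pf O M K A' i l := by
  unfold Pf
  refine exists_congr fun y => and_congr_right fun hy => ?_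
  rw [ok.congr i hi y hy (O A) (O A') fun x hx => E.loc x A A' (hA _ ((E.len x).trans hx))]

theorem loc_Er {i : ℕ} (hi : i0 ≤ i) : Loc {x | x.length ≤ 2 ^ T i} (Er O M K i) := by
  intro A A' hA
  refine exists_congr fun l => and_congr_right fun hl => ?_
  refine and_congr (pf_congr E ok hi hA) (loc_BadT (T i) l A A' fun x hx => hA x ?_)
  have h1 := length_le_spotsT (hl.trans (le_T i)) x hx
  have h2 := ok.spots i hi
  change x.length ≤ _
  omega

theorem loc_Dn (i : ℕ) : Loc {x | x.length ≤ T i} (Dn O M K i0 i) := by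
  intro A A' hA
  refine forall₃_congr fun i' h1 h2 => not_congr ?_
  refine loc_Er E ok h1 A A' fun x hx => hA x ?_
  have h3 := two_pow_T_lt i'
  have h4 : T (i' + 1) ≤ T i := T_strictMono.monotone h2
  simp only [Set.mem_ofPred_eq] at hx ⊢
  omega

theorem lv_congr {A A' : Oracle} : ∀ {i : ℕ},
    (∀ x : List Bool, x.length ≤ T i → A x = A' x) →
    lv O M K i0 A i = lv O M K i0 A' i := by
  intro i
  induction i with
  | zero => intro _; rfl
  | succ i ih =>
    intro hA
    have h1 := two_pow_T_lt i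
    have h0 : T i < 2 ^ T i := Nat.lt_two_pow_self
    rw [lv, lv, ih fun x hx => hA x (by omega)]
    by_cases hi : i < i0
    · rw [if_pos hi, if_pos hi]
    · rw [if_neg hi, if_neg hi]
      have h2 : Pf O M K A i (lv O M K i0 A' i) ↔ Pf O M K A' i (lv O M K i0 A' i) :=
        pf_congr (l := lv O M K i0 A' i) E ok (i := i) (by omega)
          (fun x hx => hA x (by omega))
      by_cases h3 : Pf O M K A' i (lv O M K i0 A' i)
      · rw [if_pos h3, if_pos (h2.2 h3)]
      · rw [if_neg h3, if_neg (fun h => h3 (h2.1 h))]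

theorem loc_lv (i l : ℕ) : Loc {x | x.length ≤ T i} {A | lv O M K i0 A i = l} := by
  intro A A' hA
  simp only [Set.mem_ofPred_eq]
  rw [lv_congr E ok fun x hx => hA x hx]

theorem measurable_lv (i l : ℕ) : MeasurableSet {A | lv O M K i0 A i = l} :=
  measurableSet_of_loc (finite_length_le _) (loc_lv E ok i l)

theorem measurable_Dn (i : ℕ) : MeasurableSet (Dn O M K i0 i) :=
  measurableSet_of_loc (finite_length_le _) (loc_Dn E ok i)

theorem measurable_Er {i : ℕ} (hi : i0 ≤ i) : MeasurableSet (Er O M K i) :=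
  measurableSet_of_loc (finite_length_le _) (loc_Er E ok hi)

theorem measurable_Zr {i : ℕ} (hi : i0 ≤ i) {l : ℕ} (hl : l ≤ i) :
    MeasurableSet (Zr O M K i l) := by
  refine measurableSet_of_loc (finite_length_le (2 ^ T i)) fun A A' hA => ?_
  refine and_congr (not_congr (loc_BadT (T i) l A A' fun x hx => hA x ?_))
    (pf_congr E ok hi hA)
  have h1 := length_le_spotsT (hl.trans (le_T i)) x hx
  have h2 := ok.spots i hi
  change x.length ≤ _
  omega

end

/-! ### Planting a hit -/

/-- the words of length `n` -/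
def wds (n : ℕ) : Finset (List Bool) := Finset.univ.image (fun v : Fin n → Bool => List.ofFn v)

theorem mem_wds {n : ℕ} {w : List Bool} : w ∈ wds n ↔ w.length = n := by
  unfold wds
  rw [Finset.mem_image]
  constructor
  · rintro ⟨v, -, rfl⟩
    rw [List.length_ofFn]
  · rintro rfl
    exact ⟨fun i => w.get i, Finset.mem_univ _, List.ofFn_get w⟩

theorem card_wds (n : ℕ) : (wds n).card = 2 ^ n := by
  unfold wds
  rw [Finset.card_image_of_injective _ List.ofFn_injective, Finset.card_univ]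
  simp

/-- the only word with at least `m` ones is `w` -/
def uni (n m : ℕ) (w : List Bool) : Set Oracle :=
  {A | Hit m (0, w) A ∧ ∀ w' : List Bool, w'.length = n → w' ≠ w → ¬ Hit m (0, w') A}

theorem loc_uni (n m : ℕ) {w : List Bool} (hw : w.length = n) :
    Loc {x | x.length ≤ m + n + 2} (uni n m w) := by
  intro A A' h
  have h1 : ∀ w' : List Bool, w'.length = n → (Hit m (0, w') A ↔ Hit m (0, w') A') := by
    intro w' hw'
    refine forall₂_congr fun b hb => ?_
    rw [h _ (by change (pos 0 b w').length ≤ _; rw [length_pos]; omega)]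
  unfold uni
  simp only [Set.mem_ofPred_eq]
  rw [h1 w hw]
  refine and_congr_right fun _ => forall₃_congr fun w' hw' _ => ?_
  rw [h1 w' hw']

section

variable {O : Oracle → Oracle} (E : Emb O) {M : Alg} {K i0 : ℕ} (ok : Ok O M K i0)

include E ok

theorem zr_le {i : ℕ} (hi : i0 ≤ i) {l : ℕ} (hl : l ≤ i) :
    randomOracle (Dn O M K i0 i ∩ {A | lv O M K i0 A i = l} ∩ Zr O M K i l) ≤
      2 ^ (l + 1) *
        randomOracle (Dn O M K i0 i ∩ {A | lv O M K i0 A i = l} ∩ Er O M K i) := by
  classical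
  have hD : Loc {x | x.length ≤ T i} (Dn O M K i0 i ∩ {A | lv O M K i0 A i = l}) :=
    M2.Loc.inter (loc_Dn E ok i) (loc_lv E ok i l)
  have hE := measurable_Er E ok hi
  have hn1 := T_pos i
  set n := T i with hn
  have key := plant_count (ι := List Bool) (wds n) (fun w => H628R3.RO.spots (n + l) (0, w))
    (fun _ _ => true) (fun w => uni n (n + l) w)
    (S := Dn O M K i0 i ∩ {A | lv O M K i0 A i = l} ∩ Zr O M K i l)
    (S' := Dn O M K i0 i ∩ {A | lv O M K i0 A i = l} ∩ Er O M K i)
    ((measurableSet_of_loc (finite_length_le _) hD).inter hE)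
    (fun w hw => measurableSet_of_loc (finite_length_le _) (loc_uni n (n + l) (mem_wds.1 hw)))
    (fun w hw w' hw' hne A hA hA' => hA'.2 w (mem_wds.1 hw) hne hA.1)
    (c := n + l) (fun w _ => (M2.card_spots (n + l) (0, w)).le) (2 ^ (n - 1)) ?_
  · have e1 : ((2 ^ (n - 1) : ℕ) : ENNReal) = 2 ^ (n - 1) := by push_cast; rfl
    have e2 : (2 : ENNReal) ^ (n + l) = 2 ^ (n - 1) * 2 ^ (l + 1) := by
      rw [← pow_add]
      congr 1
      omega
    rw [e1, e2, mul_assoc] at key
    have e3 : (2 : ENNReal) ^ (n - 1) ≠ 0 := pow_ne_zero _ (by norm_num)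
    have e4 : (2 : ENNReal) ^ (n - 1) ≠ ⊤ := ENNReal.pow_ne_top (by norm_num)
    exact (ENNReal.mul_le_mul_iff_right e3 e4).1 key
  rintro A ⟨hAD, hAB, y, hy, ho⟩
  obtain ⟨S, hS, hfree⟩ := exists_touched E M A y _ n ho
  have hno : ∀ w' : List Bool, w'.length = n → ¬ Hit (n + l) (0, w') A := by
    intro w' hw' hh'
    exact hAB (mem_BadT.2 ⟨w', hw', hh'⟩)
  refine ⟨wds n \ S, Finset.sdiff_subset, ?_, ?_⟩
  · have h4 := Finset.le_card_sdiff S (wds n)
    rw [card_wds] at h4
    have h5 := ok.touch i hi y hy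
    rw [← hn] at h5
    have h6 : 2 ^ n = 2 ^ (n - 1) * 2 := by
      rw [← pow_succ]
      congr 1
      omega
    omega
  · intro w hw
    rw [Finset.mem_sdiff, mem_wds] at hw
    obtain ⟨hw, hwT⟩ := hw
    set A' := ovr (H628R3.RO.spots (n + l) (0, w)) (fun _ => true) A with hA'
    have e1 : ∀ x : List Bool, x ∉ H628R3.RO.spots (n + l) (0, w) → A' x = A x :=
      fun x hx => ovr_of_notMem hx
    have e2 : ∀ x ∈ H628R3.RO.spots (n + l) (0, w), ∃ b, x = pos 0 b w := by
      intro x hx
      obtain ⟨b, _, hb⟩ := M2.mem_spots.1 hx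
      exact ⟨b, hb.symm⟩
    have e3 : Hit (n + l) (0, w) A' := by
      intro b hb
      rw [hA', ovr_of_mem (M2.mem_spots.2 ⟨b, hb, rfl⟩)]
    have e4 : ∀ x : List Bool, x.length ≤ n → x ∉ H628R3.RO.spots (n + l) (0, w) := by
      intro x hx h
      obtain ⟨b, rfl⟩ := e2 x h
      rw [length_pos] at hx
      omega
    refine ⟨⟨?_, ?_⟩, ?_⟩
    · exact (hD A A' fun x hx => (e1 x (e4 x hx)).symm).1 hAD
    · refine ⟨l, hl, ⟨y, hy, ?_⟩, mem_BadT.2 ⟨w, hw, e3⟩⟩
      rw [← ho]
      refine hfree w hw hwT A' fun x hx => e1 x fun h => ?_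
      obtain ⟨b, hb⟩ := e2 x h
      exact hx b hb
    · refine ⟨e3, ?_⟩
      intro w' hw' hne hh'
      refine hno w' hw' fun b hbl => ?_
      rw [← hh' b hbl]
      simp only
      rw [e1 _ (fun h => by
        obtain ⟨b', hb'⟩ := e2 _ h
        exact hne (pos_inj hb').2.2)]

end

end Pool.Agent.J4H45.EXP
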