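import Pool.Agent.J4H45.EXP.Sum
import Pool.Agent.J4H45.EXP.Sys

/-!
# There is no proof system with subexponentially optimal proofs relative to a random oracle
-/

set_option autoImplicit false

namespace Pool.Agent.J4H45.EXP

open MeasureTheory Filter Pool.Agent.NPC Pool.Agent.H628R3.RO Pool.Agent.J4H45.OPT

/-- the language -/
def LA (A : Oracle) : Set (List Bool) := {x | x = [] ∨ A ∉ BadT (siz x) (lvl x)}

theorem mem_LA_code {A : Oracle} {n j : ℕ} : code n j ∈ LA A ↔ A ∉ BadT n j := by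
  unfold LA
  simp only [Set.mem_ofPred_eq, siz_code, lvl_code, or_iff_right_iff_imp]
  intro h
  simp [code] at h

section

variable {O : Oracle → Oracle} {M : Alg} {K i0 : ℕ} {A : Oracle} {P : List Bool → List Bool}

theorem notMem_Er (hM : ∀ x, M.out (O A) x = some (P x)) (hP : Set.range P = LA A) (i : ℕ) :
    A ∉ Er O M K i := by
  rintro ⟨l, -, ⟨y, -, ho⟩, hb⟩
  rw [hM y, Option.some.injEq] at ho
  have h1 : code (T i) l ∈ LA A := by
    rw [← hP, ← ho]
    exact ⟨y, rfl⟩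
  exact mem_LA_code.1 h1 hb

theorem levF_filter (ok : Ok O M K i0) {i : ℕ} (hi : i0 ≤ i) :
    levF M K i0 ((strs (lg (T i))).filter (O A)) (T i) i = lv O M K i0 A i :=
  levF_eq ok hi fun _ hx => ofL_filter' (O A) hx

theorem okE_code (ok : Ok O M K i0) {i1 i : ℕ} (h01 : i0 ≤ i1) (hi : i1 ≤ i) :
    okE M K i0 i1 (code (T i) (lv O M K i0 A i)) ((strs (lg (siz (code (T i)
      (lv O M K i0 A i))))).filter (O A)) = true := by
  have h1 : ix (T i) = 2 * i + 1 := ix_tw _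
  have h2 : (2 * i + 1) / 2 = i := by omega
  unfold okE
  simp only [siz_code, lvl_code, h1, h2, levF_filter ok (h01.trans hi), decide_true,
    Bool.true_and, Bool.and_true, decide_eq_true_eq]
  exact hi

theorem of_okE (ok : Ok O M K i0) {i1 : ℕ} (h01 : i0 ≤ i1) {x : List Bool}
    (h : okE M K i0 i1 x ((strs (lg (siz x))).filter (O A)) = true) :
    ∃ i ≥ i1, x = code (T i) (lv O M K i0 A i) := by
  unfold okE at h
  simp only [Bool.and_eq_true, decide_eq_true_eq] at h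
  obtain ⟨a1, a2, a3, a4⟩ := h
  set i := ix (siz x) / 2 with hi
  have h1 : siz x = T i := tw_of_ix a2
  refine ⟨i, a3, ?_⟩
  rw [h1, levF_filter ok (h01.trans a3)] at a4
  rw [a1, a4, h1]

theorem Qe_isProofSystem (hM : ∀ x, M.out (O A) x = some (P x)) (hP : Set.range P = LA A)
    (ok : Ok O M K i0) {i1 : ℕ} (h01 : i0 ≤ i1)
    (hT : ∀ i ≥ i1, A ∉ BadT (T i) (lv O M K i0 A i)) :
    IsProofSystem (O A) (LA A) (Qe M K i0 i1 (O A) P) := by
  refine ⟨isFP_Qe M K i0 i1 ⟨M, hM⟩, ?_⟩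
  apply Set.Subset.antisymm
  · rintro x ⟨w, rfl⟩
    unfold Qe
    split_ifs with h1
    · obtain ⟨i, hi, hx⟩ := of_okE ok h01 h1.2
      rw [hx, mem_LA_code]
      exact hT i hi
    · rw [← hP]
      exact ⟨_, rfl⟩
  · intro x hx
    rw [← hP] at hx
    obtain ⟨v, rfl⟩ := hx
    exact ⟨false :: v, Qe_false M K i0 i1 (O A) P v⟩

theorem long_proof (hM : ∀ x, M.out (O A) x = some (P x)) (ok : Ok O M K i0) {i : ℕ}
    (hK : K ≤ T i) (h : ¬ Pf O M K A i (lv O M K i0 A i)) {v : List Bool}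
    (hv : P v = code (T i) (lv O M K i0 A i)) :
    2 ^ (T i + lv O M K i0 A i + 2) ≤ v.length ^ (8 * K) := by
  have h1 : T i < K * v.length.size := by
    by_contra hcon
    exact h ⟨v, by omega, by rw [hM v, hv]⟩
  set s := v.length.size with hs
  have hK1 := ok.pos
  have h2 : 2 ≤ s := by
    by_contra hcon
    have : s ≤ 1 := by omega
    have : K * s ≤ K := by nlinarith
    omega
  have h3 : 2 ^ (s - 1) ≤ v.length := by
    by_contra hcon
    have h4 : v.length.size ≤ s - 1 := Nat.size_le.2 (by omega)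
    omega
  have h5 : lv O M K i0 A i ≤ T i := (lv_le A i).trans (le_T i)
  have h6 := T_pos i
  obtain ⟨t, ht⟩ : ∃ t, s = t + 2 := ⟨s - 2, by omega⟩
  calc 2 ^ (T i + lv O M K i0 A i + 2) ≤ 2 ^ ((s - 1) * (8 * K)) := by
        apply Nat.pow_le_pow_right (by norm_num)
        have h7 : s - 1 = t + 1 := by omega
        rw [h7]
        rw [ht] at h1
        nlinarith
    _ = (2 ^ (s - 1)) ^ (8 * K) := by rw [← pow_mul]
    _ ≤ v.length ^ (8 * K) := Nat.pow_le_pow_left h3 _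

end

theorem ae_LA {O : Oracle → Oracle} (E : Emb O) : ∀ᵐ A ∂randomOracle, ∀ P,
    IsProofSystem (O A) (LA A) P → ∃ Q, IsProofSystem (O A) (LA A) Q ∧ ∃ k : ℕ, ∀ N : ℕ,
      ∃ w : List Bool, N ≤ w.length ∧ ∀ v, P v = Q w → 2 ^ w.length ≤ v.length ^ k := by
  have hex : ∀ M : Alg, ∃ K i0, Ok O M K i0 := fun M => exists_ok O M
  choose K i0 ok using hex
  have h1 : ∀ᵐ A ∂randomOracle, ∀ M : Alg, (∀ i, A ∉ Er O M (K M) i) →
      (∀ᶠ i in atTop, A ∉ BadT (T i) (lv O M (K M) (i0 M) A i)) ∧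
      ∃ᶠ i in atTop, ¬ Pf O M (K M) A i (lv O M (K M) (i0 M) A i) := by
    rw [ae_all_iff]
    exact fun M => ae_levels E (ok M)
  filter_upwards [h1] with A hA P hPS
  obtain ⟨⟨M, hM⟩, hP⟩ := hPS
  obtain ⟨h2, h3⟩ := hA M (notMem_Er hM hP)
  obtain ⟨N1, hN1⟩ := eventually_atTop.1 h2
  set i1 := max N1 (i0 M) with hi1
  refine ⟨Qe M (K M) (i0 M) i1 (O A) P, Qe_isProofSystem hM hP (ok M) (le_max_right _ _)
    (fun i hi => hN1 i ((le_max_left _ _).trans hi)), 8 * K M, fun N => ?_⟩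
  obtain ⟨i, hi, hs⟩ := frequently_atTop.1 h3 (i1 + N + K M)
  have hlen : (true :: code (T i) (lv O M (K M) (i0 M) A i)).length =
      T i + lv O M (K M) (i0 M) A i + 2 := by
    simp [code]
    omega
  refine ⟨true :: code (T i) (lv O M (K M) (i0 M) A i), ?_, fun v hv => ?_⟩
  · rw [hlen]
    have := le_T i
    omega
  · rw [Qe_true M (K M) (i0 M) i1 (O A) P (okE_code (ok M) (le_max_right _ _) (by omega))] at hv
    rw [hlen]
    exact long_proof hM (ok M) (by have := le_T i; omega) hs hv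

/-! ### Transfer to hard sets -/

theorem transfer_arith (b : Polynomial ℕ) (k' : ℕ) : ∃ k N : ℕ, ∀ s ≥ N, ∀ u,
    2 ^ s ≤ (2 * b.eval s + 1 + u) ^ k' → 2 ^ (s + 1) ≤ u ^ k := by
  obtain ⟨N1, h1⟩ := eventually_atTop.1 (H529R3.Lev.poly_le_two_pow
    (Polynomial.C 2 * (Polynomial.C 4 * b + Polynomial.C 2) ^ k'))
  refine ⟨3 * k', N1 + 3 * k' + 1, fun s hs u hu => ?_⟩
  have h2 := h1 s (by omega)
  simp only [Polynomial.eval_add, Polynomial.eval_mul, Polynomial.eval_C,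
    Polynomial.eval_pow] at h2
  have h3 : 0 < (4 * b.eval s + 2) ^ k' := by positivity
  have h4 : 2 * b.eval s + 1 < u := by
    by_contra hcon
    have h5 : (2 * b.eval s + 1 + u) ^ k' ≤ (4 * b.eval s + 2) ^ k' :=
      Nat.pow_le_pow_left (by omega) _
    omega
  have h5 : 2 ^ s ≤ 2 ^ k' * u ^ k' := by
    rw [← mul_pow]
    exact hu.trans (Nat.pow_le_pow_left (by omega) _)
  have h6 : (2 ^ s) ^ 3 ≤ (2 ^ k' * u ^ k') ^ 3 := Nat.pow_le_pow_left h5 _
  have h7 : 2 ^ (3 * k') * 2 ^ (s + 1) ≤ 2 ^ (3 * k') * u ^ (3 * k') := by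
    calc 2 ^ (3 * k') * 2 ^ (s + 1) = 2 ^ (3 * k' + (s + 1)) := by rw [← pow_add]
      _ ≤ 2 ^ (s * 3) := Nat.pow_le_pow_right (by norm_num) (by omega)
      _ = (2 ^ s) ^ 3 := by rw [pow_mul]
      _ ≤ (2 ^ k' * u ^ k') ^ 3 := h6
      _ = 2 ^ (3 * k') * u ^ (3 * k') := by
        rw [mul_pow, ← pow_mul, ← pow_mul, mul_comm k' 3]
  exact Nat.le_of_mul_le_mul_left h7 (by positivity)

theorem addSys_false (F P Q₀ : List Bool → List Bool) (v : List Bool) :
    addSys F P Q₀ (false :: v) = P v := by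
  unfold addSys
  rw [if_neg (by simp), List.tail_cons]

theorem main {O : Oracle → Oracle} (E : Emb O) : ∀ᵐ A ∂randomOracle, ∀ L : Set (List Bool),
    CoNPHardRel (O A) L → ∀ P, IsProofSystem (O A) L P →
      ∃ Q, IsProofSystem (O A) L Q ∧ (∀ v, Q (false :: v) = P v) ∧ ∃ k : ℕ, ∀ N : ℕ,
        ∃ w : List Bool, N ≤ w.length ∧ ∀ v, P v = Q w → 2 ^ w.length ≤ v.length ^ k := by
  filter_upwards [ae_LA E] with A hA L hL P hP
  obtain ⟨F, hF, hr⟩ := hL _ (isCoNP_emb E A)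
  have h0 : ([] : List Bool) ∈ {x : List Bool | x = [] ∨ A ∉ BadT (siz x) (lvl x)} := Or.inl rfl
  obtain ⟨Q₀, hQ₀, k₀, hk₀⟩ := hA _ (backSys_isProofSystem hP hF hr h0)
  obtain ⟨b, hb⟩ := IsFP.length_le hQ₀.1
  obtain ⟨k, N1, hk⟩ := transfer_arith b k₀
  refine ⟨addSys F P Q₀, addSys_isProofSystem hP hF hr hQ₀, addSys_false F P Q₀, k,
    fun N => ?_⟩
  obtain ⟨w, hw, hv⟩ := hk₀ (N + N1)
  refine ⟨true :: w, by rw [List.length_cons]; omega, fun v hPv => ?_⟩
  rw [addSys_true] at hPv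
  have h1 := hv (pairBits (Q₀ w) v) (backSys_pair hPv)
  rw [length_pairBits_A3] at h1
  rw [List.length_cons]
  refine hk w.length (by omega) v.length (h1.trans (Nat.pow_le_pow_left ?_ _))
  have := hb w
  omega

/-- the consequence for optimal proof systems -/
theorem not_isOptimal {A : Oracle} {L : Set (List Bool)}
    (h : ∀ P, IsProofSystem A L P → ∃ Q, IsProofSystem A L Q ∧ (∀ v, Q (false :: v) = P v) ∧
      ∃ k : ℕ, ∀ N : ℕ, ∃ w : List Bool, N ≤ w.length ∧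
        ∀ v, P v = Q w → 2 ^ w.length ≤ v.length ^ k) : ¬ ∃ P, IsOptimal A L P := by
  rintro ⟨P, hP, hopt⟩
  obtain ⟨Q, hQ, -, k, hk⟩ := h P hP
  obtain ⟨q, hq⟩ := hopt Q hQ
  obtain ⟨N1, h1⟩ := eventually_atTop.1 (H529R3.Lev.poly_le_two_pow
    (Polynomial.C 2 * (q + Polynomial.C 1) ^ k))
  obtain ⟨w, hw, hv⟩ := hk N1
  obtain ⟨v, hPv, hl⟩ := hq w
  have h2 := hv v hPv
  have h3 := h1 _ hw
  simp only [Polynomial.eval_add, Polynomial.eval_mul, Polynomial.eval_C,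
    Polynomial.eval_pow] at h3
  have h4 : v.length ^ k ≤ (q.eval w.length + 1) ^ k := Nat.pow_le_pow_left (by omega) _
  have h5 : 0 < (q.eval w.length + 1) ^ k := by positivity
  omega

end Pool.Agent.J4H45.EXP
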