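import Pool.Agent.J4H45.EXP.Ev

/-!
# Adaptive levels: the sums
-/

set_option autoImplicit false

namespace Pool.Agent.J4H45.EXP

open MeasureTheory Filter Pool.Agent.NPC Pool.Agent.H628R3.RO Pool.Agent.J4H45.OPT

theorem measure_inter_of_disjoint {K K' : Set (List Bool)} (hK : K.Finite) (hK' : K'.Finite)
    (hd : Disjoint K K') {S S' : Set Oracle} (h : Loc K S) (h' : Loc K' S') :
    randomOracle (S ∩ S') = randomOracle S * randomOracle S' := by
  have h1 := prob_inter_of_disjoint hK hK' hd h h'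
  unfold prob Measure.real at h1
  rw [← ENNReal.toReal_mul] at h1
  exact (ENNReal.toReal_eq_toReal_iff' (measure_ne_top _ _)
    (ENNReal.mul_ne_top (measure_ne_top _ _) (measure_ne_top _ _))).1 h1

theorem measure_BadT_le (n j : ℕ) : randomOracle (BadT n j) ≤ 2⁻¹ ^ j := by
  have h1 := prob_BadT_le n j
  unfold prob Measure.real at h1
  have h2 : ENNReal.ofReal ((randomOracle (BadT n j)).toReal) = randomOracle (BadT n j) :=
    ENNReal.ofReal_toReal (measure_ne_top _ _)
  rw [← h2]
  refine (ENNReal.ofReal_le_ofReal h1).trans (le_of_eq ?_)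
  rw [ENNReal.ofReal_pow (by norm_num)]
  congr 1
  rw [one_div, ENNReal.ofReal_inv_of_pos (by norm_num)]
  norm_num

theorem two_mul_inv_pow (l : ℕ) : (2 : ENNReal) * 2⁻¹ ^ (l + 1) = 2⁻¹ ^ l := by
  rw [pow_succ, mul_comm (2⁻¹ ^ l) _, ← mul_assoc, ENNReal.mul_inv_cancel (by norm_num)
    (by norm_num), one_mul]

theorem inv_pow_mul_pow (l : ℕ) : (2⁻¹ : ENNReal) ^ l * 2 ^ (l + 1) = 2 := by
  rw [pow_succ, ← mul_assoc, ← mul_pow, ENNReal.inv_mul_cancel (by norm_num) (by norm_num),
    one_pow, one_mul]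

section

variable (O : Oracle → Oracle) (M : Alg) (K i0 : ℕ)

/-- the weight of the level -/
noncomputable def wt (A : Oracle) (i : ℕ) : ENNReal := 2⁻¹ ^ lv O M K i0 A i

/-- no error so far, level `l`, and a short proof of a true statement -/
def gS (i l : ℕ) : Set Oracle :=
  Dn O M K i0 i ∩ {A | lv O M K i0 A i = l} ∩ Zr O M K i l

/-- the weight of the level if there is a short proof -/
noncomputable def gF (i : ℕ) (A : Oracle) : ENNReal :=
  ∑ l ∈ Finset.range (i + 1), (gS O M K i0 i l).indicator (fun _ => (2⁻¹ : ENNReal) ^ l) A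

/-- the sum of the weights is at most `c` -/
def Fc (c k : ℕ) : Set Oracle :=
  {A | ∑ k' ∈ Finset.range (k + 1), wt O M K i0 A (i0 + k') ≤ c}

/-- a false axiom, while the sum of the weights is small -/
def Xc (c k : ℕ) : Set Oracle :=
  Fc O M K i0 c k ∩ {A | A ∈ BadT (T (i0 + k)) (lv O M K i0 A (i0 + k))}

end

section

variable {O : Oracle → Oracle} (E : Emb O) {M : Alg} {K i0 : ℕ} (ok : Ok O M K i0)

include E ok

theorem measurable_gS {i : ℕ} (hi : i0 ≤ i) {l : ℕ} (hl : l ≤ i) :
    MeasurableSet (gS O M K i0 i l) :=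
  ((measurable_Dn E ok i).inter (measurable_lv E ok i l)).inter (measurable_Zr E ok hi hl)

theorem measurable_gF {i : ℕ} (hi : i0 ≤ i) : Measurable (gF O M K i0 i) :=
  Finset.measurable_sum _ fun l hl => measurable_const.indicator
    (measurable_gS E ok hi (Nat.lt_succ_iff.1 (Finset.mem_range.1 hl)))

theorem lintegral_gF {i : ℕ} (hi : i0 ≤ i) :
    ∫⁻ A, gF O M K i0 i A ∂randomOracle ≤
      2 * randomOracle (Dn O M K i0 i ∩ Er O M K i) := by
  unfold gF
  rw [lintegral_finsetSum' _ fun l hl => (measurable_const.indicator (measurable_gS E ok hi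
    (Nat.lt_succ_iff.1 (Finset.mem_range.1 hl)))).aemeasurable]
  calc ∑ l ∈ Finset.range (i + 1),
        ∫⁻ A, (gS O M K i0 i l).indicator (fun _ => (2⁻¹ : ENNReal) ^ l) A ∂randomOracle
      = ∑ l ∈ Finset.range (i + 1), (2⁻¹ : ENNReal) ^ l * randomOracle (gS O M K i0 i l) := by
        refine Finset.sum_congr rfl fun l hl => ?_
        rw [lintegral_indicator_const (measurable_gS E ok hi
          (Nat.lt_succ_iff.1 (Finset.mem_range.1 hl)))]
    _ ≤ ∑ l ∈ Finset.range (i + 1), (2⁻¹ : ENNReal) ^ l * (2 ^ (l + 1) *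
          randomOracle (Dn O M K i0 i ∩ {A | lv O M K i0 A i = l} ∩ Er O M K i)) := by
        refine Finset.sum_le_sum fun l hl => ?_
        gcongr
        exact zr_le E ok hi (Nat.lt_succ_iff.1 (Finset.mem_range.1 hl))
    _ = ∑ l ∈ Finset.range (i + 1), 2 *
          randomOracle (Dn O M K i0 i ∩ {A | lv O M K i0 A i = l} ∩ Er O M K i) := by
        refine Finset.sum_congr rfl fun l _ => ?_
        rw [← mul_assoc, inv_pow_mul_pow]
    _ = 2 * ∑ l ∈ Finset.range (i + 1),
          randomOracle (Dn O M K i0 i ∩ {A | lv O M K i0 A i = l} ∩ Er O M K i) := by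
        rw [Finset.mul_sum]
    _ = 2 * randomOracle (⋃ l ∈ Finset.range (i + 1),
          Dn O M K i0 i ∩ {A | lv O M K i0 A i = l} ∩ Er O M K i) := by
        rw [measure_biUnion_finset]
        · intro l _ l' _ hne
          rw [Function.onFun, Set.disjoint_left]
          rintro A ⟨⟨-, h1⟩, -⟩ ⟨⟨-, h2⟩, -⟩
          exact hne (h1.symm.trans h2)
        · intro l _
          exact ((measurable_Dn E ok i).inter (measurable_lv E ok i l)).inter
            (measurable_Er E ok hi)
    _ ≤ 2 * randomOracle (Dn O M K i0 i ∩ Er O M K i) := by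
        gcongr
        refine Set.iUnion₂_subset fun l _ => ?_
        rintro A ⟨⟨h1, -⟩, h2⟩
        exact ⟨h1, h2⟩

theorem sum_first_le :
    ∑' k, randomOracle (Dn O M K i0 (i0 + k) ∩ Er O M K (i0 + k)) ≤ 1 := by
  rw [← measure_iUnion]
  · exact prob_le_one
  · intro k k' hne
    rw [Function.onFun, Set.disjoint_left]
    rintro A ⟨h1, h2⟩ ⟨h3, h4⟩
    rcases lt_or_gt_of_ne hne with h | h
    · exact h3 (i0 + k) (by omega) (by omega) h2
    · exact h1 (i0 + k') (by omega) (by omega) h4
  · intro k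
    exact (measurable_Dn E ok _).inter (measurable_Er E ok (by omega))

theorem ae_gF : ∀ᵐ A ∂randomOracle, ∑' k, gF O M K i0 (i0 + k) A < ⊤ := by
  have hm : ∀ k, Measurable (gF O M K i0 (i0 + k)) := fun k => measurable_gF E ok (by omega)
  refine ae_lt_top (Measurable.tsum hm) ?_
  rw [lintegral_tsum fun k => (hm k).aemeasurable]
  refine ne_top_of_le_ne_top (b := 2 * 1) (by norm_num) ?_
  calc ∑' k, ∫⁻ A, gF O M K i0 (i0 + k) A ∂randomOracle
      ≤ ∑' k, 2 * randomOracle (Dn O M K i0 (i0 + k) ∩ Er O M K (i0 + k)) :=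
        ENNReal.tsum_le_tsum fun k => lintegral_gF E ok (by omega)
    _ = 2 * ∑' k, randomOracle (Dn O M K i0 (i0 + k) ∩ Er O M K (i0 + k)) :=
        ENNReal.tsum_mul_left
    _ ≤ 2 * 1 := by
        gcongr
        exact sum_first_le E ok

omit E ok in
theorem wt_le_gF {A : Oracle} (hs : ∀ i, A ∉ Er O M K i) {i : ℕ}
    (h : Pf O M K A i (lv O M K i0 A i)) : wt O M K i0 A i ≤ gF O M K i0 i A := by
  have h1 : A ∈ gS O M K i0 i (lv O M K i0 A i) := by
    refine ⟨⟨fun i' _ _ => hs i', rfl⟩, fun hb => ?_, h⟩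
    exact hs i ⟨_, lv_le A i, h, hb⟩
  unfold gF wt
  rw [← Set.indicator_of_mem h1 (fun _ => (2⁻¹ : ENNReal) ^ lv O M K i0 A i)]
  exact Finset.single_le_sum (f := fun l =>
    (gS O M K i0 i l).indicator (fun _ => (2⁻¹ : ENNReal) ^ l) A) (fun _ _ => zero_le)
    (Finset.mem_range.2 (Nat.lt_succ_of_le (lv_le A i)))

omit E ok in
theorem sum_wt_le {A : Oracle} (hs : ∀ i, A ∉ Er O M K i) (n : ℕ) :
    ∑ k ∈ Finset.range n, wt O M K i0 A (i0 + k) + 2 * wt O M K i0 A (i0 + n) ≤
      ∑ k ∈ Finset.range n, gF O M K i0 (i0 + k) A + 2 := by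
  induction n with
  | zero =>
    rw [Finset.sum_range_zero, Finset.sum_range_zero]
    unfold wt
    rw [lv_eq_zero A (by omega)]
    simp
  | succ n ih =>
    rw [Finset.sum_range_succ, Finset.sum_range_succ]
    by_cases h : Pf O M K A (i0 + n) (lv O M K i0 A (i0 + n))
    · have h1 : wt O M K i0 A (i0 + (n + 1)) = wt O M K i0 A (i0 + n) := by
        unfold wt
        rw [← add_assoc, lv_succ_of_pf (by omega) h]
      rw [h1]
      calc ∑ k ∈ Finset.range n, wt O M K i0 A (i0 + k) + wt O M K i0 A (i0 + n) +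
            2 * wt O M K i0 A (i0 + n)
          = (∑ k ∈ Finset.range n, wt O M K i0 A (i0 + k) + 2 * wt O M K i0 A (i0 + n)) +
            wt O M K i0 A (i0 + n) := by ring
        _ ≤ (∑ k ∈ Finset.range n, gF O M K i0 (i0 + k) A + 2) + gF O M K i0 (i0 + n) A :=
            add_le_add ih (wt_le_gF hs h)
        _ = ∑ k ∈ Finset.range n, gF O M K i0 (i0 + k) A + gF O M K i0 (i0 + n) A + 2 := by ring
    · have h1 : 2 * wt O M K i0 A (i0 + (n + 1)) = wt O M K i0 A (i0 + n) := by
        unfold wt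
        rw [← add_assoc, lv_succ_of_not_pf (by omega) h, two_mul_inv_pow]
      rw [h1]
      calc ∑ k ∈ Finset.range n, wt O M K i0 A (i0 + k) + wt O M K i0 A (i0 + n) +
            wt O M K i0 A (i0 + n)
          = ∑ k ∈ Finset.range n, wt O M K i0 A (i0 + k) + 2 * wt O M K i0 A (i0 + n) := by ring
        _ ≤ ∑ k ∈ Finset.range n, gF O M K i0 (i0 + k) A + 2 := ih
        _ ≤ ∑ k ∈ Finset.range n, gF O M K i0 (i0 + k) A + gF O M K i0 (i0 + n) A + 2 := by
            gcongr
            exact le_self_add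

omit E ok in
theorem tsum_wt_lt {A : Oracle} (hs : ∀ i, A ∉ Er O M K i)
    (hg : ∑' k, gF O M K i0 (i0 + k) A < ⊤) : ∑' k, wt O M K i0 A (i0 + k) < ⊤ := by
  have h1 : ∑' k, wt O M K i0 A (i0 + k) ≤ ∑' k, gF O M K i0 (i0 + k) A + 2 := by
    refine ENNReal.tsum_le_of_sum_range_le fun n => ?_
    refine (le_self_add.trans (sum_wt_le hs n)).trans ?_
    gcongr
    exact ENNReal.sum_le_tsum _
  exact lt_of_le_of_lt h1 (ENNReal.add_lt_top.2 ⟨hg, by norm_num⟩)

/-! ### False axioms -/

theorem loc_Fc (c k : ℕ) : Loc {x | x.length ≤ T (i0 + k)} (Fc O M K i0 c k) := by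
  intro A A' hA
  unfold Fc
  simp only [Set.mem_ofPred_eq]
  have h : ∑ k' ∈ Finset.range (k + 1), wt O M K i0 A (i0 + k') =
      ∑ k' ∈ Finset.range (k + 1), wt O M K i0 A' (i0 + k') := by
    refine Finset.sum_congr rfl fun k' hk' => ?_
    unfold wt
    rw [Finset.mem_range] at hk'
    rw [lv_congr E ok fun x hx => hA x (le_trans hx (T_strictMono.monotone (by omega)))]
  rw [h]

theorem measure_Xc_le (c k : ℕ) : randomOracle (Xc O M K i0 c k) ≤
    ∫⁻ A, (Fc O M K i0 c k).indicator (fun A => wt O M K i0 A (i0 + k)) A ∂randomOracle := by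
  set i := i0 + k with hi
  have hFl : ∀ l, Loc {x | x.length ≤ T i} (Fc O M K i0 c k ∩ {A | lv O M K i0 A i = l}) :=
    fun l => M2.Loc.inter (loc_Fc E ok c k) (loc_lv E ok i l)
  have hFm : ∀ l, MeasurableSet (Fc O M K i0 c k ∩ {A | lv O M K i0 A i = l}) := fun l =>
    measurableSet_of_loc (finite_length_le _) (hFl l)
  have h1 : Xc O M K i0 c k ⊆ ⋃ l ∈ Finset.range (i + 1),
      (Fc O M K i0 c k ∩ {A | lv O M K i0 A i = l}) ∩ BadT (T i) l := by
    rintro A ⟨hF, hb⟩
    refine Set.mem_biUnion (x := lv O M K i0 A i)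
      (Finset.mem_coe.2 (Finset.mem_range.2 (Nat.lt_succ_of_le (lv_le A i)))) ⟨⟨hF, rfl⟩, hb⟩
  have h2 : ∀ A, ∑ l ∈ Finset.range (i + 1),
      (Fc O M K i0 c k ∩ {A | lv O M K i0 A i = l}).indicator
        (fun _ => (2⁻¹ : ENNReal) ^ l) A ≤
      (Fc O M K i0 c k).indicator (fun A => wt O M K i0 A i) A := by
    intro A
    by_cases hF : A ∈ Fc O M K i0 c k
    · rw [Set.indicator_of_mem hF]
      rw [Finset.sum_eq_single (lv O M K i0 A i)]
      · have hm : A ∈ Fc O M K i0 c k ∩ {A' | lv O M K i0 A' i = lv O M K i0 A i} := ⟨hF, rfl⟩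
        rw [Set.indicator_of_mem hm]
        rfl
      · intro l _ hne
        rw [Set.indicator_of_notMem]
        rintro ⟨-, h⟩
        exact hne h.symm
      · intro h
        exact absurd (Finset.mem_range.2 (Nat.lt_succ_of_le (lv_le A i))) h
    · refine le_trans (le_of_eq ?_) zero_le
      refine Finset.sum_eq_zero fun l _ => ?_
      rw [Set.indicator_of_notMem]
      rintro ⟨h, -⟩
      exact hF h
  calc randomOracle (Xc O M K i0 c k)
      ≤ randomOracle (⋃ l ∈ Finset.range (i + 1),
          (Fc O M K i0 c k ∩ {A | lv O M K i0 A i = l}) ∩ BadT (T i) l) := measure_mono h1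
    _ ≤ ∑ l ∈ Finset.range (i + 1),
          randomOracle ((Fc O M K i0 c k ∩ {A | lv O M K i0 A i = l}) ∩ BadT (T i) l) :=
        measure_biUnion_finset_le _ _
    _ ≤ ∑ l ∈ Finset.range (i + 1), (2⁻¹ : ENNReal) ^ l *
          randomOracle (Fc O M K i0 c k ∩ {A | lv O M K i0 A i = l}) := by
        refine Finset.sum_le_sum fun l _ => ?_
        rw [measure_inter_of_disjoint (finite_length_le _) (spotsT (T i) l).finite_toSet ?_
          (hFl l) (loc_BadT (T i) l), mul_comm]
        · gcongr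
          exact measure_BadT_le _ _
        · rw [Set.disjoint_left]
          intro x hx hx'
          have := lt_length_spotsT x hx'
          simp only [Set.mem_ofPred_eq] at hx
          omega
    _ = ∑ l ∈ Finset.range (i + 1), ∫⁻ A,
          (Fc O M K i0 c k ∩ {A | lv O M K i0 A i = l}).indicator
            (fun _ => (2⁻¹ : ENNReal) ^ l) A ∂randomOracle := by
        refine Finset.sum_congr rfl fun l _ => ?_
        rw [lintegral_indicator_const (hFm l)]
    _ = ∫⁻ A, ∑ l ∈ Finset.range (i + 1),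
          (Fc O M K i0 c k ∩ {A | lv O M K i0 A i = l}).indicator
            (fun _ => (2⁻¹ : ENNReal) ^ l) A ∂randomOracle := by
        rw [lintegral_finsetSum' _ fun l _ =>
          (measurable_const.indicator (hFm l)).aemeasurable]
    _ ≤ ∫⁻ A, (Fc O M K i0 c k).indicator (fun A => wt O M K i0 A i) A ∂randomOracle :=
        lintegral_mono h2

theorem measurable_wt (i : ℕ) : Measurable (fun A => wt O M K i0 A i) := by
  have h : Measurable (fun A => lv O M K i0 A i) := measurable_to_countable' fun l =>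
    measurable_lv E ok i l
  exact (measurable_of_countable (fun l : ℕ => (2⁻¹ : ENNReal) ^ l)).comp h

theorem ae_axioms (c : ℕ) : ∀ᵐ A ∂randomOracle, ∀ᶠ k in atTop, A ∉ Xc O M K i0 c k := by
  refine ae_eventually_notMem ?_
  have hm : ∀ k, Measurable ((Fc O M K i0 c k).indicator (fun A => wt O M K i0 A (i0 + k))) :=
    fun k => (measurable_wt E ok _).indicator
      (measurableSet_of_loc (finite_length_le _) (loc_Fc E ok c k))
  refine ne_top_of_le_ne_top (b := (c : ENNReal)) (ENNReal.natCast_ne_top c) ?_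
  calc ∑' k, randomOracle (Xc O M K i0 c k)
      ≤ ∑' k, ∫⁻ A, (Fc O M K i0 c k).indicator (fun A => wt O M K i0 A (i0 + k)) A
          ∂randomOracle := ENNReal.tsum_le_tsum fun k => measure_Xc_le E ok c k
    _ = ∫⁻ A, ∑' k, (Fc O M K i0 c k).indicator (fun A => wt O M K i0 A (i0 + k)) A
          ∂randomOracle := by rw [lintegral_tsum fun k => (hm k).aemeasurable]
    _ ≤ ∫⁻ _, (c : ENNReal) ∂randomOracle := by
        refine lintegral_mono fun A => ?_
        refine ENNReal.tsum_le_of_sum_range_le fun n => ?_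
        induction n with
        | zero => rw [Finset.sum_range_zero]; exact zero_le
        | succ n ih =>
          rw [Finset.sum_range_succ]
          by_cases hF : A ∈ Fc O M K i0 c n
          · have h1 : ∑ k ∈ Finset.range n, (Fc O M K i0 c k).indicator
                (fun A => wt O M K i0 A (i0 + k)) A ≤
                ∑ k ∈ Finset.range n, wt O M K i0 A (i0 + k) :=
              Finset.sum_le_sum fun k _ => Set.indicator_le_self' (fun _ _ => zero_le) _
            rw [Set.indicator_of_mem hF]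
            refine (add_le_add_left h1 _).trans ?_
            have h2 : ∑ k' ∈ Finset.range (n + 1), wt O M K i0 A (i0 + k') ≤ c := hF
            rwa [Finset.sum_range_succ] at h2
          · rw [Set.indicator_of_notMem hF, add_zero]
            exact ih
    _ = c := by simp

/-- Almost surely: if the algorithm makes no errors then only finitely many axioms are false, and
infinitely many axioms have no short proof. -/
theorem ae_levels : ∀ᵐ A ∂randomOracle, (∀ i, A ∉ Er O M K i) →
    (∀ᶠ i in atTop, A ∉ BadT (T i) (lv O M K i0 A i)) ∧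
    ∃ᶠ i in atTop, ¬ Pf O M K A i (lv O M K i0 A i) := by
  have h1 : ∀ᵐ A ∂randomOracle, ∀ c : ℕ, ∀ᶠ k in atTop, A ∉ Xc O M K i0 c k := by
    rw [ae_all_iff]
    exact fun c => ae_axioms E ok c
  filter_upwards [ae_gF E ok, h1] with A hg hx hs
  have hw := tsum_wt_lt hs hg
  constructor
  · obtain ⟨c, hc⟩ := ENNReal.exists_nat_gt hw.ne
    have hF : ∀ k, A ∈ Fc O M K i0 c k := fun k =>
      (ENNReal.sum_le_tsum _).trans hc.le
    obtain ⟨N, hN⟩ := eventually_atTop.1 (hx c)
    refine eventually_atTop.2 ⟨i0 + N, fun i hi hb => ?_⟩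
    obtain ⟨k, rfl⟩ : ∃ k, i = i0 + k := ⟨i - i0, by omega⟩
    exact hN k (by omega) ⟨hF k, hb⟩
  · intro hcon
    rw [eventually_atTop] at hcon
    obtain ⟨N, hN⟩ := hcon
    simp only [not_not] at hN
    have h2 : ∀ k, lv O M K i0 A (i0 + N + k) = lv O M K i0 A (i0 + N) := by
      intro k
      induction k with
      | zero => rfl
      | succ k ih =>
        rw [← add_assoc, lv_succ_of_pf (by omega) (hN _ (by omega)), ih]
    have h3 := ENNReal.tendsto_atTop_zero_of_tsum_ne_top hw.ne
    have h4 : Tendsto (fun k => wt O M K i0 A (i0 + k)) atTop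
        (nhds ((2⁻¹ : ENNReal) ^ lv O M K i0 A (i0 + N))) := by
      refine tendsto_const_nhds.congr' ?_
      filter_upwards [eventually_ge_atTop N] with k hk
      obtain ⟨k', rfl⟩ : ∃ k', k = N + k' := ⟨k - N, by omega⟩
      unfold wt
      rw [← add_assoc, h2]
    have h5 := tendsto_nhds_unique h3 h4
    exact (pow_ne_zero _ (by norm_num)) h5.symm

end

end Pool.Agent.J4H45.EXP
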